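import Pool.Agent.Q234.KT.Stm

set_option autoImplicit false

open Pool.Agent.Q234.KT

namespace Pool.Agent.Q235.KT.AR


theorem main : ArithS := by
  intro κ hκ
  have hl : 0 < Real.log 128 := Real.log_pos (by norm_num)
  obtain ⟨q, hq⟩ : ∃ q : ℝ, q = Real.exp (2 * Real.log 128 / κ) := ⟨_, rfl⟩
  have hq0 : 0 < q := by rw [hq]; exact Real.exp_pos _
  have hlq : Real.log q = 2 * Real.log 128 / κ := by rw [hq, Real.log_exp]
  have hlq0 : 0 < Real.log q := by rw [hlq]; positivity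
  have hq1 : 1 ≤ q := by
    rw [hq]
    exact Real.one_le_exp (by positivity)
  refine ⟨q, 256 * (4 : ℝ) ^ κ + 1, hq1, by positivity, fun L ε hL hε hε1 => ?_⟩
  have hL1 : (1 : ℝ) ≤ L := by exact_mod_cast hL
  have hL2 : (1 : ℝ) ≤ (L : ℝ) ^ 2 := by nlinarith
  obtain ⟨A, hA⟩ : ∃ A : ℝ, A = 16 * (L : ℝ) ^ 2 / ε := ⟨_, rfl⟩
  have hA1 : 1 ≤ A := by
    rw [hA, le_div_iff₀ hε]
    linarith
  have hA0 : 0 < A := by linarith
  obtain ⟨y, hy⟩ : ∃ y : ℝ, y = Real.log A / Real.log q := ⟨_, rfl⟩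
  have hy0 : 0 ≤ y := by rw [hy]; exact div_nonneg (Real.log_nonneg hA1) hlq0.le
  obtain ⟨s, hs⟩ : ∃ s : ℕ, s = ⌈y⌉₊ := ⟨_, rfl⟩
  have hs1 : y ≤ s := by rw [hs]; exact Nat.le_ceil y
  have hs2 : (s : ℝ) < y + 1 := by rw [hs]; exact Nat.ceil_lt_add_one hy0
  have hqs : A ≤ q ^ s := by
    rw [← Real.rpow_natCast, ← Real.log_le_log_iff hA0 (Real.rpow_pos_of_pos hq0 _),
      Real.log_rpow hq0]
    have h1 := mul_le_mul_of_nonneg_right hs1 hlq0.le
    rwa [hy, div_mul_cancel₀ _ hlq0.ne'] at h1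
  have hqs0 : 0 < q ^ s := by positivity
  refine ⟨s, ?_, ?_⟩
  · have h1 : 2 / q ^ s ≤ ε / (8 * (L : ℝ) ^ 2) := by
      rw [div_le_div_iff₀ hqs0 (by positivity)]
      have h2 : ε * A = 16 * (L : ℝ) ^ 2 := by rw [hA]; field_simp
      nlinarith [mul_le_mul_of_nonneg_left hqs hε.le]
    have h2 : 1 + 2 / q ^ s ≤ Real.exp (2 / q ^ s) := by
      have := Real.add_one_le_exp (2 / q ^ s)
      linarith
    have h3 : (1 + 2 / q ^ s) ^ (L ^ 2) ≤ Real.exp (ε / 8) := by
      calc (1 + 2 / q ^ s) ^ (L ^ 2) ≤ Real.exp (2 / q ^ s) ^ (L ^ 2) :=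
            pow_le_pow_left₀ (by positivity) h2 _
        _ = Real.exp ((L : ℝ) ^ 2 * (2 / q ^ s)) := by
            rw [← Real.exp_nat_mul]
            push_cast
            ring_nf
        _ ≤ Real.exp (ε / 8) := by
            apply Real.exp_le_exp.2
            have h4 := mul_le_mul_of_nonneg_left h1 (by positivity : 0 ≤ (L : ℝ) ^ 2)
            have h5 : (L : ℝ) ^ 2 * (ε / (8 * (L : ℝ) ^ 2)) = ε / 8 := by field_simp
            linarith
    have h6 : Real.exp (ε / 8) - 1 ≤ ε / 4 := by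
      have h7 : |ε / 8| ≤ 1 := by rw [abs_of_pos (by positivity)]; linarith
      have h8 := Real.abs_exp_sub_one_le h7
      rw [abs_of_pos (show (0 : ℝ) < ε / 8 by positivity)] at h8
      have h9 := le_abs_self (Real.exp (ε / 8) - 1)
      linarith
    linarith
  · have hLe : 1 ≤ (L : ℝ) / ε := by
      rw [le_div_iff₀ hε]
      linarith
    have hLe0 : 0 < (L : ℝ) / ε := by linarith
    have h1 : (128 : ℝ) ^ s ≤ 128 * (4 ^ κ * ((L : ℝ) / ε) ^ κ) := by
      have h2 : (128 : ℝ) ^ s ≤ (128 : ℝ) ^ (y + 1) := by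
        rw [← Real.rpow_natCast]
        exact Real.rpow_le_rpow_of_exponent_le (by norm_num) hs2.le
      have h3 : (128 : ℝ) ^ (y + 1) = 128 * 128 ^ y := by
        rw [Real.rpow_add (by norm_num), Real.rpow_one, mul_comm]
      have h4 : (128 : ℝ) ^ y ≤ 4 ^ κ * ((L : ℝ) / ε) ^ κ := by
        rw [← Real.mul_rpow (by norm_num) hLe0.le, ← Real.log_le_log_iff (by positivity)
          (by positivity), Real.log_rpow (by norm_num), Real.log_rpow (by positivity)]
        have h5 : y * Real.log 128 = κ / 2 * Real.log A := by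
          rw [hy, hlq]
          field_simp
        rw [h5]
        have h6 : Real.log A ≤ 2 * Real.log (4 * ((L : ℝ) / ε)) := by
          have h7 : 2 * Real.log (4 * ((L : ℝ) / ε)) = Real.log ((4 * ((L : ℝ) / ε)) ^ 2) := by
            rw [Real.log_pow]
            norm_num
          rw [h7]
          apply Real.log_le_log hA0
          rw [hA, div_le_iff₀ hε]
          have h8 : (4 * ((L : ℝ) / ε)) ^ 2 * ε = 16 * (L : ℝ) ^ 2 / ε := by
            field_simp
            ring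
          rw [h8, le_div_iff₀ hε]
          nlinarith
        nlinarith
      calc (128 : ℝ) ^ s ≤ (128 : ℝ) ^ (y + 1) := h2
        _ = 128 * 128 ^ y := h3
        _ ≤ 128 * (4 ^ κ * ((L : ℝ) / ε) ^ κ) := by linarith
    have h2 : (1 : ℝ) ≤ ((L : ℝ) / ε) ^ κ := Real.one_le_rpow hLe hκ.le
    nlinarith

end Pool.Agent.Q235.KT.AR
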