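import Pool.Agent.Q80.KT.Stm

/-!
# Project KT (helper80), job SECOND (helper235): second moment of the number of tree components
-/

set_option autoImplicit false

open Finset MeasureTheory Filter Topology
open scoped Classical ENNReal NNReal

noncomputable section

namespace Q235.KT.SECOND

open Pool.Agent.Q287.SR Pool.Agent.Q80.KT

theorem tree_sub {n : ℕ} {G : SimpleGraph (Fin n)} {S T : Finset (Fin n)} (hS : TreeComp G S)
    (hT : TreeComp G T) {a : Fin n} (haS : a ∈ S) (haT : a ∈ T) : S ⊆ T := by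
  intro b hb
  have hc : (G.induce (S : Set (Fin n))).Connected := hS.1.connected
  have hr := hc.preconnected ⟨a, haS⟩ ⟨b, hb⟩
  rw [SimpleGraph.reachable_iff_reflTransGen] at hr
  have key : ∀ y : (S : Set (Fin n)), Relation.ReflTransGen (G.induce (S : Set (Fin n))).Adj
      ⟨a, haS⟩ y → y.1 ∈ T := by
    intro y hy
    induction hy with
    | refl => exact haT
    | tail _ hbc ih =>
      by_contra hn
      exact hT.2 _ ih _ hn hbc
  exact key _ hr

theorem tree_disj {n : ℕ} {G : SimpleGraph (Fin n)} {S T : Finset (Fin n)} (hS : TreeComp G S)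
    (hT : TreeComp G T) (hne : S ≠ T) : Disjoint S T := by
  rw [Finset.disjoint_left]
  intro a haS haT
  exact hne (Finset.Subset.antisymm (tree_sub hS hT haS haT) (tree_sub hT hS haT haS))

/-- the sizes -/
def W (k m : ℕ) : Prop := k ≤ m ∧ m ≤ 2 * k

theorem ind_nonneg (P : Prop) : 0 ≤ ind P := by
  unfold ind
  split_ifs <;> norm_num

theorem ind_true {P : Prop} (h : P) : ind P = 1 := if_pos h

theorem ind_false {P : Prop} (h : ¬ P) : ind P = 0 := if_neg h

theorem pointwise {n : ℕ} (k : ℕ) (G : SimpleGraph (Fin n)) :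
    XT n k G ^ 2 ≤ XT n k G + ∑ S : Finset (Fin n), ∑ T : Finset (Fin n),
      if W k S.card ∧ W k T.card ∧ Disjoint S T then ind (TreeComp G S ∧ TreeComp G T) else 0 := by
  set a : Finset (Fin n) → ℝ := fun S => if W k S.card then ind (TreeComp G S) else 0 with ha
  have hX : XT n k G = ∑ S, a S := by
    unfold XT
    refine Finset.sum_congr rfl fun S _ => ?_
    simp only [ha, W]
    congr
  have h1 : ∑ S, a S = ∑ S, ∑ T, if S = T then a S else 0 := by
    refine Finset.sum_congr rfl fun S _ => ?_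
    rw [Finset.sum_ite_eq, if_pos (Finset.mem_univ _)]
  rw [hX, sq, Finset.sum_mul_sum]
  conv_rhs => rw [h1]
  rw [← Finset.sum_add_distrib]
  refine Finset.sum_le_sum fun S _ => ?_
  rw [← Finset.sum_add_distrib]
  refine Finset.sum_le_sum fun T _ => ?_
  have ha0 : ∀ S, 0 ≤ a S := fun S => by
    simp only [ha]
    split_ifs
    · exact ind_nonneg _
    · exact le_rfl
  have ha1 : ∀ S, a S = 0 ∨ (W k S.card ∧ TreeComp G S ∧ a S = 1) := fun S => by
    simp only [ha]
    by_cases hW : W k S.card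
    · rw [if_pos hW]
      by_cases hT : TreeComp G S
      · exact Or.inr ⟨hW, hT, ind_true hT⟩
      · exact Or.inl (ind_false hT)
    · exact Or.inl (if_neg hW)
  have hr : 0 ≤ (if W k S.card ∧ W k T.card ∧ Disjoint S T then
      ind (TreeComp G S ∧ TreeComp G T) else 0 : ℝ) := by
    split_ifs
    · exact ind_nonneg _
    · exact le_rfl
  by_cases hST : S = T
  · subst hST
    rw [if_pos rfl]
    rcases ha1 S with h | ⟨-, -, h⟩
    · rw [h]
      linarith
    · rw [h]
      linarith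
  · rw [if_neg hST]
    rcases ha1 S with h | ⟨w1, t1, h⟩
    · rw [h]
      linarith
    · rcases ha1 T with h' | ⟨w2, t2, h'⟩
      · rw [h']
        linarith
      · rw [h, h', if_pos ⟨w1, w2, tree_disj t1 t2 hST⟩, ind_true ⟨t1, t2⟩]
        norm_num

theorem Ex_ite {n : ℕ} (p : ℝ) (c : Prop) [Decidable c] (f : SimpleGraph (Fin n) → ℝ) :
    Ex n p (fun G => if c then f G else 0) = if c then Ex n p f else 0 := by
  by_cases hc : c
  · simp only [if_pos hc]
  · simp only [if_neg hc]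
    exact Ex_const p 0

/-- the probability of a tree component on a given set of `m` vertices -/
def q (n : ℕ) (p : ℝ) (m : ℕ) : ℝ :=
  (m : ℝ) ^ (m - 2) * p ^ (m - 1) * (1 - p) ^ (m.choose 2 - (m - 1) + m * (n - m))

theorem q_nonneg {n : ℕ} {p : ℝ} (h0 : 0 ≤ p) (h1 : p ≤ 1) (m : ℕ) : 0 ≤ q n p m := by
  have : 0 ≤ 1 - p := by linarith
  unfold q
  positivity

theorem first (h1 : S_T1) {n k : ℕ} (hk : 1 ≤ k) (p : ℝ) :
    Ex n p (XT n k) = ∑ S : Finset (Fin n), if W k S.card then q n p S.card else 0 := by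
  have e : XT n k = fun G => ∑ S : Finset (Fin n), if W k S.card then ind (TreeComp G S) else 0 := by
    funext G
    unfold XT
    refine Finset.sum_congr rfl fun S _ => ?_
    simp only [W]
    congr
  rw [e, Ex_sum]
  refine Finset.sum_congr rfl fun S _ => ?_
  rw [Ex_ite]
  by_cases hW : W k S.card
  · rw [if_pos hW, if_pos hW]
    exact h1 n S.card p S (hk.trans hW.1) rfl
  · rw [if_neg hW, if_neg hW]

theorem desc_le {n m : ℕ} (hm : m ≤ n) (hn : 0 < n) (b : ℕ) :
    (((n - m).descFactorial b : ℕ) : ℝ) ≤ (n.descFactorial b : ℕ) * (1 - (m : ℝ) / n) ^ b := by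
  have hn0 : (0 : ℝ) < n := by exact_mod_cast hn
  have hm' : (m : ℝ) ≤ n := by exact_mod_cast hm
  have h0 : 0 ≤ 1 - (m : ℝ) / n := by
    rw [sub_nonneg, div_le_one hn0]
    exact hm'
  induction b with
  | zero => simp
  | succ b ih =>
    rw [Nat.descFactorial_succ, Nat.descFactorial_succ, pow_succ]
    push_cast
    have h2 : ((n - m - b : ℕ) : ℝ) ≤ ((n - b : ℕ) : ℝ) * (1 - (m : ℝ) / n) := by
      by_cases hb : b ≤ n - m
      · have e1 : ((n - m - b : ℕ) : ℝ) = n - m - b := by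
          rw [Nat.cast_sub hb, Nat.cast_sub hm]
        have e2 : ((n - b : ℕ) : ℝ) = n - b := by
          rw [Nat.cast_sub (by omega)]
        rw [e1, e2]
        have e3 : ((n : ℝ) - b) * (1 - (m : ℝ) / n) = n - m - b + b * m / n := by
          field_simp
          ring
        rw [e3]
        have : (0 : ℝ) ≤ b * m / n := by positivity
        linarith
      · have e1 : n - m - b = 0 := by omega
        rw [e1, Nat.cast_zero]
        positivity
    have h3 : (0 : ℝ) ≤ ((n - m - b : ℕ) : ℝ) := Nat.cast_nonneg _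
    calc ((n - m - b : ℕ) : ℝ) * ((n - m).descFactorial b : ℕ)
        ≤ (((n - b : ℕ) : ℝ) * (1 - (m : ℝ) / n)) *
          ((n.descFactorial b : ℕ) * (1 - (m : ℝ) / n) ^ b) :=
          mul_le_mul h2 ih (Nat.cast_nonneg _) (by positivity)
      _ = _ := by ring

theorem choose_le {n m : ℕ} (hm : m ≤ n) (hn : 0 < n) (b : ℕ) :
    (((n - m).choose b : ℕ) : ℝ) ≤ (n.choose b : ℕ) * (1 - (m : ℝ) / n) ^ b := by
  have h := desc_le hm hn b
  rw [Nat.descFactorial_eq_factorial_mul_choose, Nat.descFactorial_eq_factorial_mul_choose] at h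
  push_cast at h
  have hf : (0 : ℝ) < (b.factorial : ℕ) := by exact_mod_cast b.factorial_pos
  rw [mul_assoc] at h
  exact le_of_mul_le_mul_left h hf

theorem exp_le_one_sub {p : ℝ} (h0 : 0 ≤ p) (h1 : p ≤ 1 / 2) :
    Real.exp (-(p + 2 * p ^ 2)) ≤ 1 - p := by
  have hp : 0 < 1 - p := by linarith
  rw [← Real.le_log_iff_exp_le hp]
  refine le_trans ?_ (Real.one_sub_inv_le_log_of_pos hp)
  have h2 : (1 - p)⁻¹ ≤ 1 + p + 2 * p ^ 2 := by
    rw [inv_le_iff_one_le_mul₀ hp]
    nlinarith [mul_nonneg h0 (sq_nonneg p), sq_nonneg p, mul_nonneg (sq_nonneg p) (by linarith : 0 ≤ 1 - 2 * p)]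
  linarith

theorem num {n m b : ℕ} {p D : ℝ} (hm : m ≤ n) (hn : 0 < n) (h0 : 0 ≤ p) (h1 : p ≤ 1 / 2)
    (hD : (m : ℝ) * b * (p + 2 * p ^ 2 - 1 / n) ≤ D) :
    (((n - m).choose b : ℕ) : ℝ) / (1 - p) ^ (m * b) ≤ (n.choose b : ℕ) * Real.exp D := by
  have hn0 : (0 : ℝ) < n := by exact_mod_cast hn
  have hp : 0 < 1 - p := by linarith
  have hm' : (m : ℝ) ≤ n := by exact_mod_cast hm
  rw [div_le_iff₀ (pow_pos hp _)]
  have e0 : 0 ≤ 1 - (m : ℝ) / n := by
    rw [sub_nonneg, div_le_one hn0]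
    exact hm'
  have e1 : (1 - (m : ℝ) / n) ^ b ≤ Real.exp (-((m : ℝ) * b / n)) := by
    have h2 : 1 - (m : ℝ) / n ≤ Real.exp (-((m : ℝ) / n)) := Real.one_sub_le_exp_neg _
    refine (pow_le_pow_left₀ e0 h2 b).trans (le_of_eq ?_)
    rw [← Real.exp_nat_mul]
    congr 1
    ring
  have e2 : Real.exp (-((p + 2 * p ^ 2) * (m * b))) ≤ (1 - p) ^ (m * b) := by
    refine (le_of_eq ?_).trans (pow_le_pow_left₀ (Real.exp_pos _).le (exp_le_one_sub h0 h1) (m * b))
    rw [← Real.exp_nat_mul]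
    congr 1
    push_cast
    ring
  have e3 : Real.exp (-((m : ℝ) * b / n)) ≤ Real.exp D * (1 - p) ^ (m * b) := by
    refine le_trans ?_ (mul_le_mul_of_nonneg_left e2 (Real.exp_pos _).le)
    rw [← Real.exp_add]
    refine Real.exp_le_exp.2 ?_
    have : (m : ℝ) * b * (p + 2 * p ^ 2 - 1 / n) =
      (p + 2 * p ^ 2) * (m * b) - (m : ℝ) * b / n := by ring
    linarith
  calc (((n - m).choose b : ℕ) : ℝ) ≤ (n.choose b : ℕ) * (1 - (m : ℝ) / n) ^ b := choose_le hm hn b
    _ ≤ (n.choose b : ℕ) * (Real.exp D * (1 - p) ^ (m * b)) :=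
      mul_le_mul_of_nonneg_left (e1.trans e3) (Nat.cast_nonneg _)
    _ = _ := by ring

theorem inner {n k : ℕ} {p D : ℝ} (hn : 0 < n) (h0 : 0 ≤ p) (h1 : p ≤ 1 / 2)
    (hD : ∀ m b : ℕ, m ≤ 2 * k → b ≤ 2 * k → (m : ℝ) * b * (p + 2 * p ^ 2 - 1 / n) ≤ D)
    (S : Finset (Fin n)) (hS : W k S.card) :
    ∑ T : Finset (Fin n), (if W k T.card ∧ Disjoint S T then
      q n p T.card / (1 - p) ^ (S.card * T.card) else 0) ≤
      Real.exp D * ∑ T : Finset (Fin n), if W k T.card then q n p T.card else 0 := by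
  have hm : S.card ≤ n := by
    have := Finset.card_le_univ S
    rwa [Fintype.card_fin] at this
  have hp1 : p ≤ 1 := by linarith
  have hp : 0 < 1 - p := by linarith
  have l1 : ∑ T : Finset (Fin n), (if W k T.card ∧ Disjoint S T then
      q n p T.card / (1 - p) ^ (S.card * T.card) else 0) =
      ∑ b ∈ range (n - S.card + 1), ((n - S.card).choose b : ℝ) *
        (if W k b then q n p b / (1 - p) ^ (S.card * b) else 0) := by
    have h2 := Finset.sum_powerset_apply_card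
      (fun b => if W k b then q n p b / (1 - p) ^ (S.card * b) else (0 : ℝ))
      (x := (Sᶜ : Finset (Fin n)))
    rw [Finset.card_compl, Fintype.card_fin] at h2
    simp only [nsmul_eq_mul] at h2
    rw [← h2]
    symm
    refine Finset.sum_subset_zero_on_sdiff (Finset.subset_univ _) (fun T hT => ?_) fun T hT => ?_
    · have h3 : ¬ Disjoint S T := by
        intro hd
        refine (Finset.mem_sdiff.1 hT).2 (Finset.mem_powerset.2 ?_)
        intro x hx
        rw [Finset.mem_compl]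
        intro hxS
        exact (Finset.disjoint_left.1 hd) hxS hx
      exact if_neg fun h => h3 h.2
    · have h3 : Disjoint S T := by
        rw [Finset.disjoint_left]
        intro x hxS hxT
        exact (Finset.mem_compl.1 (Finset.mem_powerset.1 hT hxT)) hxS
      by_cases hW : W k T.card
      · rw [if_pos hW, if_pos ⟨hW, h3⟩]
      · rw [if_neg hW, if_neg fun h => hW h.1]
  have l2 : ∑ T : Finset (Fin n), (if W k T.card then q n p T.card else 0) =
      ∑ b ∈ range (n + 1), (n.choose b : ℝ) * (if W k b then q n p b else 0) := by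
    have h2 := Finset.sum_powerset_apply_card
      (fun b => if W k b then q n p b else (0 : ℝ)) (x := (univ : Finset (Fin n)))
    rw [Finset.card_univ, Fintype.card_fin] at h2
    simp only [nsmul_eq_mul] at h2
    rw [← h2, Finset.powerset_univ]
  rw [l1, l2, Finset.mul_sum]
  have hnn : ∀ b, 0 ≤ Real.exp D * ((n.choose b : ℝ) * (if W k b then q n p b else 0)) := by
    intro b
    have : 0 ≤ (if W k b then q n p b else (0 : ℝ)) := by
      split_ifs
      · exact q_nonneg h0 hp1 b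
      · exact le_rfl
    positivity
  refine le_trans (Finset.sum_le_sum fun b _ => ?_) (Finset.sum_le_sum_of_subset_of_nonneg
    (Finset.range_subset_range.2 (by omega : n - S.card + 1 ≤ n + 1)) fun b _ _ => hnn b)
  by_cases hW : W k b
  · rw [if_pos hW, if_pos hW]
    have h3 := num (b := b) hm hn h0 h1 (hD _ _ hS.2 hW.2)
    have h4 := mul_le_mul_of_nonneg_right h3 (q_nonneg (n := n) h0 hp1 b)
    calc ((n - S.card).choose b : ℝ) * (q n p b / (1 - p) ^ (S.card * b)) =
        ((n - S.card).choose b : ℝ) / (1 - p) ^ (S.card * b) * q n p b := by ring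
      _ ≤ (n.choose b : ℕ) * Real.exp D * q n p b := h4
      _ = _ := by ring
  · rw [if_neg hW, if_neg hW, mul_zero, mul_zero, mul_zero]

theorem main (h1 : S_T1) (h2 : S_T2) {n k : ℕ} {p D : ℝ} (hn : 0 < n) (hk : 1 ≤ k) (h0 : 0 ≤ p)
    (hp : p ≤ 1 / 2)
    (hD : ∀ m b : ℕ, m ≤ 2 * k → b ≤ 2 * k → (m : ℝ) * b * (p + 2 * p ^ 2 - 1 / n) ≤ D) :
    Ex n p (fun G => XT n k G ^ 2) ≤ Ex n p (XT n k) + (Ex n p (XT n k)) ^ 2 * Real.exp D := by
  have hp1 : p ≤ 1 := by linarith
  have hp2 : 0 < 1 - p := by linarith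
  refine (Ex_mono h0 hp1 (pointwise k)).trans ?_
  rw [Ex_add, Ex_sum]
  refine add_le_add le_rfl ?_
  have e1 : ∀ S : Finset (Fin n), Ex n p (fun G => ∑ T : Finset (Fin n),
      if W k S.card ∧ W k T.card ∧ Disjoint S T then ind (TreeComp G S ∧ TreeComp G T) else 0) ≤
      (if W k S.card then q n p S.card else 0) *
        (Real.exp D * ∑ T : Finset (Fin n), if W k T.card then q n p T.card else 0) := by
    intro S
    rw [Ex_sum]
    by_cases hS : W k S.card
    · rw [if_pos hS]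
      refine le_trans (le_of_eq ?_) (mul_le_mul_of_nonneg_left (inner hn h0 hp hD S hS)
        (q_nonneg h0 hp1 _))
      rw [Finset.mul_sum]
      refine Finset.sum_congr rfl fun T _ => ?_
      rw [Ex_ite]
      by_cases hT : W k T.card ∧ Disjoint S T
      · rw [if_pos ⟨hS, hT⟩, if_pos hT]
        have t := h2 n p S T hT.2
        have t1 := h1 n S.card p S (hk.trans hS.1) rfl
        have t2 := h1 n T.card p T (hk.trans hT.1.1) rfl
        rw [t1, t2] at t
        rw [mul_div_assoc', eq_div_iff (pow_pos hp2 _).ne']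
        exact t
      · rw [if_neg fun h => hT h.2, if_neg hT, mul_zero]
    · rw [if_neg hS, zero_mul]
      refine le_of_eq (Finset.sum_eq_zero fun T _ => ?_)
      rw [Ex_ite, if_neg fun h => hS h.1]
  refine (Finset.sum_le_sum fun S _ => e1 S).trans (le_of_eq ?_)
  rw [← Finset.sum_mul, first h1 hk p]
  ring

theorem t_SECOND (h1 : S_T1) (h2 : S_T2) : S_SECOND := by
  intro lam
  refine ⟨16 * (|lam| + 8), by positivity, fun δ hδ hδ1 => ?_⟩
  have c1 : ∀ᶠ n : ℕ in atTop, 1 / δ ≤ (n : ℝ) ^ ((2 : ℝ) / 3) :=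
    ((tendsto_rpow_atTop (by norm_num : (0 : ℝ) < 2 / 3)).comp
      tendsto_natCast_atTop_atTop).eventually_ge_atTop _
  have c2 : ∀ᶠ n : ℕ in atTop, |lam| ≤ (n : ℝ) ^ ((1 : ℝ) / 3) :=
    ((tendsto_rpow_atTop (by norm_num : (0 : ℝ) < 1 / 3)).comp
      tendsto_natCast_atTop_atTop).eventually_ge_atTop _
  filter_upwards [c1, c2, eventually_ge_atTop 4] with n hn1 hn2 hn4
  have hn0 : 0 < n := by omega
  have hN : (0 : ℝ) < n := by exact_mod_cast hn0
  have hN4 : (4 : ℝ) ≤ n := by exact_mod_cast hn4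
  set a : ℝ := (n : ℝ) ^ ((1 : ℝ) / 3) with ha
  have ha0 : 0 < a := Real.rpow_pos_of_pos hN _
  have ha1 : 1 ≤ a := Real.one_le_rpow (by linarith) (by norm_num)
  have e3 : a ^ 3 = n := by
    rw [ha, ← Real.rpow_natCast, ← Real.rpow_mul hN.le]
    norm_num
  have e2 : (n : ℝ) ^ ((2 : ℝ) / 3) = a ^ 2 := by
    rw [ha, ← Real.rpow_natCast, ← Real.rpow_mul hN.le]
    norm_num
  have e4 : (n : ℝ) ^ ((4 : ℝ) / 3) = a ^ 4 := by
    rw [ha, ← Real.rpow_natCast, ← Real.rpow_mul hN.le]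
    norm_num
  have hp : pN lam n = 1 / a ^ 3 + lam / a ^ 4 := by
    unfold pN
    rw [e4, e3]
  have hlam : |lam / a ^ 4| ≤ 1 / a ^ 3 := by
    rw [abs_div, abs_of_pos (pow_pos ha0 4), div_le_div_iff₀ (pow_pos ha0 4) (pow_pos ha0 3)]
    nlinarith [pow_pos ha0 3]
  have hlam2 := abs_le.1 hlam
  have h0 : 0 ≤ pN lam n := by
    rw [hp]
    linarith [hlam2.1]
  have h1p : pN lam n ≤ 2 / a ^ 3 := by
    rw [hp]
    have : (2 : ℝ) / a ^ 3 = 1 / a ^ 3 + 1 / a ^ 3 := by ring
    rw [this]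
    linarith [hlam2.2]
  have h1q : pN lam n ≤ 1 / 2 := by
    refine h1p.trans ?_
    rw [e3, div_le_div_iff₀ hN (by norm_num)]
    linarith
  rw [e2] at hn1 ⊢
  have hda : 1 ≤ δ * a ^ 2 := by
    rw [div_le_iff₀ hδ] at hn1
    linarith
  have hk : 1 ≤ ⌈δ * a ^ 2⌉₊ := Nat.one_le_iff_ne_zero.2 (Nat.ceil_pos.2 (by linarith)).ne'
  have hk2 : (⌈δ * a ^ 2⌉₊ : ℝ) ≤ 2 * (δ * a ^ 2) := by
    have := Nat.ceil_lt_add_one (by linarith : 0 ≤ δ * a ^ 2)
    linarith
  refine main h1 h2 hn0 hk h0 h1q fun m b hm hb => ?_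
  have hm' : (m : ℝ) ≤ 4 * (δ * a ^ 2) := by
    have : (m : ℝ) ≤ 2 * ⌈δ * a ^ 2⌉₊ := by exact_mod_cast hm
    linarith
  have hb' : (b : ℝ) ≤ 4 * (δ * a ^ 2) := by
    have : (b : ℝ) ≤ 2 * ⌈δ * a ^ 2⌉₊ := by exact_mod_cast hb
    linarith
  have hmb : (m : ℝ) * b ≤ 16 * δ ^ 2 * a ^ 4 := by
    calc (m : ℝ) * b ≤ (4 * (δ * a ^ 2)) * (4 * (δ * a ^ 2)) :=
        mul_le_mul hm' hb' (Nat.cast_nonneg _) (by positivity)
      _ = _ := by ring
  have hx : pN lam n + 2 * pN lam n ^ 2 - 1 / n ≤ (|lam| + 8) / a ^ 4 := by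
    have hsq : pN lam n ^ 2 ≤ (2 / a ^ 3) ^ 2 := pow_le_pow_left₀ h0 h1p 2
    have hsq2 : (2 / a ^ 3) ^ 2 ≤ 4 / a ^ 4 := by
      rw [div_pow, ← pow_mul, div_le_div_iff₀ (by positivity) (by positivity)]
      have : a ^ 4 ≤ a ^ (3 * 2) := pow_le_pow_right₀ ha1 (by norm_num)
      nlinarith
    have h3 : pN lam n - 1 / n ≤ |lam| / a ^ 4 := by
      rw [hp, ← e3]
      have : lam / a ^ 4 ≤ |lam| / a ^ 4 :=
        div_le_div_of_nonneg_right (le_abs_self _) (by positivity)
      linarith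
    have h4 : (|lam| + 8) / a ^ 4 = |lam| / a ^ 4 + 2 * (4 / a ^ 4) := by ring
    rw [h4]
    linarith
  have hpos : 0 ≤ (|lam| + 8) / a ^ 4 := by positivity
  calc (m : ℝ) * b * (pN lam n + 2 * pN lam n ^ 2 - 1 / n) ≤ (m : ℝ) * b * ((|lam| + 8) / a ^ 4) :=
      mul_le_mul_of_nonneg_left hx (by positivity)
    _ ≤ 16 * δ ^ 2 * a ^ 4 * ((|lam| + 8) / a ^ 4) := mul_le_mul_of_nonneg_right hmb hpos
    _ = 16 * (|lam| + 8) * δ ^ 2 := by
      field_simp

end Q235.KT.SECOND
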